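import Mathlib
import Pool.Agent.Lib.MP_7f3eea_co.Defs
import Pool.Agent.Lib.MP_7f3eea_co.Proof

/-!
# Boundaries of squeezed balls of positive index

The boundary of a squeezed ball `Δ_ℓ(U)` with `ℓ < d_max(U)` need not be a Kalai squeezed sphere.
-/

namespace Pool.Agent.Results.MP_7f3eea_co.SqueezedBoundary

open Pool.Agent.Lib.MP_7f3eea_co

/-- **Main result.**  There are a shifted order ideal `U` in `m` variables, all of whose monomials of
largest degree are divisible by `x_m`, and an integer `ℓ = d_max(U) - 1 < d_max(U)`, such that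
`Δ_ℓ(U)` is a ball whose boundary is not a Kalai squeezed sphere. -/
theorem result : ∃ (m ℓ : ℕ) (U : Finset (Multiset ℕ)), IsShiftedOrderIdeal m U ∧
    ℓ < dmax U ∧ (ℓ + 1 = dmax U ∧ ∀ u ∈ U, u.card = dmax U → m ∈ u) ∧
    IsBall (squeezed m ℓ U) ∧ ¬ IsKalaiSqueezedSphere (boundary (squeezed m ℓ U)) :=
  main_result

end Pool.Agent.Results.MP_7f3eea_co.SqueezedBoundary
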